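import Pool.Agent.J4H54.LA.Est
import Pool.Agent.J4H48.LA.Stm

/-!
# (E1), (E2) of project LA
-/

set_option autoImplicit false

namespace Pool.Agent.J4H54.LA

open MeasureTheory Set

open Pool.Agent.TH826.MK (circ wd norm_circ contDiff_circ hasDerivAt_circ circ_add_one)

open Pool.Agent.TH826.UH (pr NZ pr_mul pr_one pr_lin cont_int nz_circ nz_circ_sub ld_circ)

open scoped Real

/-- (E1) of `Pool.Agent.J4H48.LA.Stm` -/
theorem t_E1 : Pool.Agent.J4H48.LA.S_E1 := by
  intro c c' d d' x x' η η' hc hc' hd hd' hx hx' hper hper' hη hb hb' hD hD'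
  have h0 : 0 ≤ η := (norm_nonneg _).trans (hb 0)
  have h0' : 0 ≤ η' := (norm_nonneg _).trans (hD 0)
  have nX := near_pert hη hx hper hb
  have nX' := near_pert hη hx' hper' hb'
  have na := near_aff hd
  have na' := near_aff hd'
  have zc := nz_const hc
  have zc' := nz_const hc'
  -- split
  have s1 : pr (fun s => c * (1 + d * circ (1 / 2) s) * (1 + x s))
      (fun s => c' * (1 + d' * circ (1 / 2) s) * (1 + x' s)) =
      pr (fun s => 1 + d * circ (1 / 2) s) (fun s => 1 + x' s) +
        (pr (fun s => 1 + x s) (fun s => 1 + d' * circ (1 / 2) s) +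
          pr (fun s => 1 + x s) (fun s => 1 + x' s)) := by
    rw [pr_mul_left (zc.mul na.nz) nX.nz ((zc'.mul na'.nz).mul nX'.nz),
      pr_mul (zc.mul na.nz) (zc'.mul na'.nz) nX'.nz, pr_mul nX.nz (zc'.mul na'.nz) nX'.nz,
      pr_mul (zc.mul na.nz) zc' na'.nz, pr_mul nX.nz zc' na'.nz, nX.pr_cst, na.pr_cst' hc hc',
      pr_mul_left zc na.nz na'.nz, pr_mul_left zc na.nz nX'.nz, pr_aff_aff hd hd',
      pr_swap (fun s => 1 + d' * circ (1 / 2) s) (fun _ => c),
      pr_swap (fun s => 1 + x' s) (fun _ => c), na'.pr_cst, nX'.pr_cst]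
    ring
  have l1 := fun s => abs_log_one_add hη (hb s)
  have l2 := fun s => abs_log_one_add hη (hb' s)
  have i1 := pert_im hη hx hb hD
  have i2 := pert_im hη hx' hb' hD'
  have b1 := pr_le (aff_log hd) (aff_im hd) l2 i2
  have b2 := pr_le l1 i1 (aff_log hd') (aff_im hd')
  have b3 := pr_le l1 i1 l2 i2
  rw [s1]
  refine (abs_add_le _ _).trans ?_
  have b4 := abs_add_le (pr (fun s => 1 + x s) (fun s => 1 + d' * circ (1 / 2) s))
    (pr (fun s => 1 + x s) (fun s => 1 + x' s))
  have b5 : 4 / 3 * η * (4 / 3 * η') ≤ 4 / 9 * η' := by nlinarith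
  linarith

/-- (E2) of `Pool.Agent.J4H48.LA.Stm` -/
theorem t_E2 : Pool.Agent.J4H48.LA.S_E2 := by
  intro c d x η hc hd hx hper hη hb
  have h0 : 0 ≤ η := (norm_nonneg _).trans (hb 0)
  have nX := near_pert hη hx hper hb
  have na := near_aff hd
  have zc := nz_const hc
  have zU : NZ (circ (1 / 2)) := nz_circ (by norm_num)
  constructor
  · rw [pr_mul zU (zc.mul na.nz) nX.nz, pr_mul zU zc na.nz, pr_circ_aff hd,
      Pool.Agent.TH826.UH.pr_const (by norm_num)]
    have e : -(2 * π * Real.log ‖c‖) + 0 + pr (circ (1 / 2)) (fun s => 1 + x s) +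
        2 * π * Real.log ‖c‖ = pr (circ (1 / 2)) (fun s => 1 + x s) := by ring
    rw [e]
    have hwim := nX.wind
    unfold pr
    simp only [ld_circ (R := 1 / 2) (by norm_num), norm_circ (R := 1 / 2) (by norm_num)]
    have j1 : IntervalIntegrable (fun s => Real.log (1 / 2) *
        (deriv (fun s => 1 + x s) s / (1 + x s)).im) volume 0 1 :=
      (continuous_const.mul nX.nz.cont_im).intervalIntegrable _ _
    have j2 : IntervalIntegrable (fun s => Real.log ‖1 + x s‖ * (2 * π)) volume 0 1 :=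
      (nX.nz.cont_log.mul continuous_const).intervalIntegrable _ _
    rw [intervalIntegral.integral_sub j1 j2, intervalIntegral.integral_const_mul, hwim, mul_zero,
      zero_sub, abs_neg]
    have h := intervalIntegral.norm_integral_le_of_norm_le_const (a := (0 : ℝ)) (b := 1)
      (f := fun s => Real.log ‖1 + x s‖ * (2 * π)) (C := 4 / 3 * η * (2 * π)) (fun s _ => by
        rw [norm_mul, Real.norm_eq_abs, Real.norm_eq_abs, abs_of_pos Real.two_pi_pos]
        exact mul_le_mul_of_nonneg_right (abs_log_one_add hη (hb s)) Real.two_pi_pos.le)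
    rw [Real.norm_eq_abs, sub_zero, abs_one, mul_one] at h
    refine h.trans ?_
    nlinarith [Real.pi_pos]
  · intro μ
    rcases eq_or_ne μ 0 with rfl | hμ
    · rw [pr_cst, norm_zero, Real.log_zero, zero_mul, neg_zero]
    have e : (fun s => c * (1 + d * circ (1 / 2) s) * (1 + x s)) =
        fun s => c * ((1 + d * circ (1 / 2) s) * (1 + x s)) := by
      funext s
      ring
    rw [e]
    exact (near_prod hd hη hx hper hb).pr_cst' hc hμ

end Pool.Agent.J4H54.LA
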