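import Pool.Agent.TH826.UH.Pair

/-!
# Estimates for the regulator integral of two functions on a loop (project LA)
-/

set_option autoImplicit false

namespace Pool.Agent.J4H54.LA

open MeasureTheory Set

open Pool.Agent.TH826.MK (circ wd norm_circ contDiff_circ hasDerivAt_circ circ_add_one)

open Pool.Agent.TH826.UH (pr NZ pr_mul pr_one pr_lin cont_int nz_circ nz_circ_sub ld_circ)

open scoped Real

variable {G H : ℝ → ℂ}

theorem pr_swap (G H : ℝ → ℂ) : pr H G = -pr G H := by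
  unfold pr
  rw [← intervalIntegral.integral_neg]
  refine intervalIntegral.integral_congr fun s _ => ?_
  ring

theorem pr_mul_left {G G' H : ℝ → ℂ} (hG : NZ G) (hG' : NZ G') (hH : NZ H) :
    pr (fun s => G s * G' s) H = pr G H + pr G' H := by
  rw [pr_swap H, pr_mul hH hG hG', pr_swap G H, pr_swap G' H]
  ring

theorem nz_const {c : ℂ} (hc : c ≠ 0) : NZ fun _ => c := ⟨contDiff_const, fun _ => hc⟩

/-- functions near `1` -/
structure Near (w : ℝ → ℂ) : Prop where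
  smooth : ContDiff ℝ 2 w
  per : ∀ s, w (s + 1) = w s
  near : ∀ s, ‖w s - 1‖ < 1

theorem Near.nz {w : ℝ → ℂ} (h : Near w) : NZ w := by
  refine ⟨h.smooth, fun s hs => ?_⟩
  have := h.near s
  rw [hs, zero_sub, norm_neg, norm_one] at this
  exact lt_irrefl _ this

theorem Near.wind {w : ℝ → ℂ} (h : Near w) : ∫ s in (0 : ℝ)..1, (deriv w s / w s).im = 0 := by
  have hws : ∀ s, w s ∈ Complex.slitPlane := by
    intro s
    refine Complex.mem_slitPlane_iff.2 (Or.inl ?_)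
    have h2 := Complex.abs_re_le_norm (w s - 1)
    have h3 := (abs_le.1 h2).1
    have h4 := h.near s
    rw [Complex.sub_re, Complex.one_re] at h3
    linarith
  have hlog : ∀ s, HasDerivAt (fun s => Complex.log (w s)) (deriv w s / w s) s := fun s =>
    ((h.smooth.differentiable (by norm_num) s).hasDerivAt).clog_real (hws s)
  have hwind : ∫ s in (0 : ℝ)..1, (deriv w s / w s) = 0 := by
    rw [intervalIntegral.integral_eq_sub_of_hasDerivAt (fun s _ => hlog s)
      (h.nz.cont_ld.intervalIntegrable _ _)]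
    have h1 : w 1 = w 0 := by
      have := h.per 0
      rwa [zero_add] at this
    simp only [h1, sub_self]
  have h1 := Complex.imCLM.intervalIntegral_comp_comm
    (h.nz.cont_ld.intervalIntegrable (μ := volume) 0 1)
  rw [hwind, map_zero] at h1
  exact h1

theorem pr_cst (G : ℝ → ℂ) (μ : ℂ) :
    pr G (fun _ => μ) = -(Real.log ‖μ‖ * ∫ s in (0 : ℝ)..1, (deriv G s / G s).im) := by
  unfold pr
  simp only [deriv_const, zero_div, Complex.zero_im, mul_zero, zero_sub]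
  rw [intervalIntegral.integral_neg, intervalIntegral.integral_const_mul]

theorem Near.pr_cst {w : ℝ → ℂ} (h : Near w) (μ : ℂ) : pr w (fun _ => μ) = 0 := by
  rw [Pool.Agent.J4H54.LA.pr_cst, h.wind, mul_zero, neg_zero]

theorem pr_cst_cst (c μ : ℂ) : pr (fun _ => c) (fun _ => μ) = 0 := by
  rw [pr_cst]
  simp

/-- a constant multiple of a function near `1` -/
theorem Near.pr_cst' {w : ℝ → ℂ} (h : Near w) {c μ : ℂ} (hc : c ≠ 0) (hμ : μ ≠ 0) :
    pr (fun s => c * w s) (fun _ => μ) = 0 := by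
  rw [pr_mul_left (nz_const hc) h.nz (nz_const hμ), pr_cst_cst, h.pr_cst, add_zero]

/-- the basic bound -/
theorem pr_le {α α' β β' : ℝ} (h1 : ∀ s, |Real.log ‖G s‖| ≤ α)
    (h2 : ∀ s, |(deriv G s / G s).im| ≤ α') (h3 : ∀ s, |Real.log ‖H s‖| ≤ β)
    (h4 : ∀ s, |(deriv H s / H s).im| ≤ β') : |pr G H| ≤ α * β' + β * α' := by
  unfold pr
  have hα : 0 ≤ α := (abs_nonneg _).trans (h1 0)
  have hβ : 0 ≤ β := (abs_nonneg _).trans (h3 0)
  have h := intervalIntegral.norm_integral_le_of_norm_le_const (a := (0 : ℝ)) (b := 1)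
    (f := fun s => (Real.log ‖G s‖ * (deriv H s / H s).im -
        Real.log ‖H s‖ * (deriv G s / G s).im)) (C := α * β' + β * α') (fun s _ => by
      rw [Real.norm_eq_abs]
      refine (abs_sub _ _).trans ?_
      rw [abs_mul, abs_mul]
      exact add_le_add (mul_le_mul (h1 s) (h4 s) (abs_nonneg _) hα)
        (mul_le_mul (h3 s) (h2 s) (abs_nonneg _) hβ))
  rw [Real.norm_eq_abs, sub_zero, abs_one, mul_one] at h
  exact h

theorem abs_log_one_add {z : ℂ} {η : ℝ} (hη : η ≤ 1 / 4) (hz : ‖z‖ ≤ η) :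
    |Real.log ‖1 + z‖| ≤ 4 / 3 * η := by
  have h0 : 0 ≤ η := (norm_nonneg _).trans hz
  have h1 : ‖1 + z‖ ≤ 1 + η := by
    refine (norm_add_le _ _).trans ?_
    rw [norm_one]
    linarith
  have h2 : 1 - η ≤ ‖1 + z‖ := by
    have h3 : ‖(1 : ℂ)‖ ≤ ‖1 + z‖ + ‖z‖ := by
      have e : (1 : ℂ) = (1 + z) - z := by ring
      conv_lhs => rw [e]
      exact norm_sub_le _ _
    rw [norm_one] at h3
    linarith
  have h3 : 0 < ‖1 + z‖ := by linarith
  rw [abs_le]
  constructor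
  · have h4 := Real.one_sub_inv_le_log_of_pos h3
    have h5 : ‖1 + z‖⁻¹ ≤ (1 - η)⁻¹ := inv_anti₀ (by linarith) h2
    have h6 : (1 - η)⁻¹ ≤ 1 + 4 / 3 * η := by
      rw [inv_le_iff_one_le_mul₀ (by linarith)]
      nlinarith
    linarith
  · have h4 := Real.log_le_sub_one_of_pos h3
    linarith

theorem abs_im_div {D z : ℂ} {η' : ℝ} (hz : ‖z‖ ≤ 1 / 4) (hD : ‖D‖ ≤ η') :
    |(D / (1 + z)).im| ≤ 4 / 3 * η' := by
  refine (Complex.abs_im_le_norm _).trans ?_
  have h2 : 3 / 4 ≤ ‖1 + z‖ := by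
    have h3 : ‖(1 : ℂ)‖ ≤ ‖1 + z‖ + ‖z‖ := by
      have e : (1 : ℂ) = (1 + z) - z := by ring
      conv_lhs => rw [e]
      exact norm_sub_le _ _
    rw [norm_one] at h3
    linarith
  rw [norm_div, div_le_iff₀ (by linarith)]
  have h0 : 0 ≤ η' := (norm_nonneg _).trans hD
  nlinarith

section affine

variable {d : ℂ}

theorem near_aff (hd : ‖d‖ ≤ 1) : Near fun s => 1 + d * circ (1 / 2) s := by
  refine ⟨contDiff_const.add (contDiff_const.mul (contDiff_circ _)), fun s => ?_, fun s => ?_⟩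
  · simp only [circ_add_one]
  · rw [add_sub_cancel_left, norm_mul, norm_circ (by norm_num)]
    linarith

theorem aff_norm (hd : ‖d‖ ≤ 1) (s : ℝ) : 1 / 2 ≤ ‖1 + d * circ (1 / 2) s‖ ∧
    ‖1 + d * circ (1 / 2) s‖ ≤ 3 / 2 := by
  have h1 : ‖d * circ (1 / 2) s‖ ≤ 1 / 2 := by
    rw [norm_mul, norm_circ (by norm_num)]
    linarith
  constructor
  · have h3 : ‖(1 : ℂ)‖ ≤ ‖1 + d * circ (1 / 2) s‖ + ‖d * circ (1 / 2) s‖ := by
      have e : (1 : ℂ) = (1 + d * circ (1 / 2) s) - d * circ (1 / 2) s := by ring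
      conv_lhs => rw [e]
      exact norm_sub_le _ _
    rw [norm_one] at h3
    linarith
  · refine (norm_add_le _ _).trans ?_
    rw [norm_one]
    linarith

theorem aff_log (hd : ‖d‖ ≤ 1) (s : ℝ) : |Real.log ‖1 + d * circ (1 / 2) s‖| ≤ 1 := by
  obtain ⟨h1, h2⟩ := aff_norm hd s
  have h3 : 0 < ‖1 + d * circ (1 / 2) s‖ := by linarith
  rw [abs_le]
  constructor
  · have h4 := Real.one_sub_inv_le_log_of_pos h3
    have h5 : ‖1 + d * circ (1 / 2) s‖⁻¹ ≤ (1 / 2 : ℝ)⁻¹ := inv_anti₀ (by norm_num) h1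
    norm_num at h5
    linarith
  · have h4 := Real.log_le_sub_one_of_pos h3
    linarith

theorem aff_im (hd : ‖d‖ ≤ 1) (s : ℝ) : |(deriv (fun s => 1 + d * circ (1 / 2) s) s /
    (1 + d * circ (1 / 2) s)).im| ≤ 7 := by
  refine (Complex.abs_im_le_norm _).trans ?_
  obtain ⟨h1, h2⟩ := aff_norm hd s
  have e1 : deriv (fun s => 1 + d * circ (1 / 2) s) s = d * (2 * π * Complex.I * circ (1 / 2) s) :=
    (((hasDerivAt_circ (1 / 2) s).const_mul d).const_add 1).deriv
  rw [norm_div, e1, div_le_iff₀ (by linarith)]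
  have e2 : ‖d * (2 * π * Complex.I * circ (1 / 2) s)‖ ≤ π := by
    rw [norm_mul, norm_mul, norm_circ (by norm_num), norm_mul, Complex.norm_I, norm_mul,
      Complex.norm_real, Real.norm_eq_abs, abs_of_pos Real.pi_pos]
    have : ‖(2 : ℂ)‖ = 2 := by norm_num
    rw [this]
    nlinarith [Real.pi_pos, norm_nonneg d]
  have := Real.pi_lt_d2
  linarith

theorem sub_eq_aff (hd0 : d ≠ 0) (s : ℝ) :
    1 + d * circ (1 / 2) s = d * (circ (1 / 2) s - (-d⁻¹)) := by
  field_simp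
  ring

theorem inv_norm (hd : ‖d‖ ≤ 1) (hd0 : d ≠ 0) : 1 ≤ ‖-d⁻¹‖ := by
  rw [norm_neg, norm_inv]
  exact (one_le_inv₀ (norm_pos_iff.2 hd0)).2 hd

theorem wd_inv (hd : ‖d‖ ≤ 1) (hd0 : d ≠ 0) : wd (1 / 2) (-d⁻¹) = 0 := by
  unfold wd
  rw [if_neg]
  have := inv_norm hd hd0
  linarith

theorem nz_sub (hd : ‖d‖ ≤ 1) (hd0 : d ≠ 0) : NZ fun s => circ (1 / 2) s - (-d⁻¹) :=
  nz_circ_sub (by norm_num) (by
    have := inv_norm hd hd0
    intro h
    rw [h] at this
    norm_num at this)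

/-- functions holomorphic and without zeros in the disc -/
theorem pr_aff_aff {d' : ℂ} (hd : ‖d‖ ≤ 1) (hd' : ‖d'‖ ≤ 1) :
    pr (fun s => 1 + d * circ (1 / 2) s) (fun s => 1 + d' * circ (1 / 2) s) = 0 := by
  rcases eq_or_ne d' 0 with rfl | h0'
  · simp only [zero_mul, add_zero]
    exact pr_one
  rcases eq_or_ne d 0 with rfl | h0
  · simp only [zero_mul, add_zero]
    rw [pr_swap (fun s => 1 + d' * circ (1 / 2) s), pr_one, neg_zero]
  have e : ∀ {d : ℂ}, d ≠ 0 → (fun s => 1 + d * circ (1 / 2) s) =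
      fun s => d * (circ (1 / 2) s - (-d⁻¹)) := fun h => funext fun s => sub_eq_aff h s
  have hn := (near_aff hd).nz
  rw [e h0', pr_mul hn (nz_const h0') (nz_sub hd' h0'), (near_aff hd).pr_cst, zero_add,
    pr_swap (fun s => circ (1 / 2) s - (-d'⁻¹)), e h0,
    pr_mul (nz_sub hd' h0') (nz_const h0) (nz_sub hd h0)]
  have h1 : pr (fun s => circ (1 / 2) s - (-d'⁻¹)) (fun _ => d) = 0 := by
    have e2 : (fun s => circ (1 / 2) s - (-d'⁻¹)) =
        fun s => d'⁻¹ * (1 + d' * circ (1 / 2) s) := by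
      funext s
      rw [sub_eq_aff h0', ← mul_assoc, inv_mul_cancel₀ h0', one_mul]
    rw [e2]
    exact (near_aff hd').pr_cst' (inv_ne_zero h0') h0
  have h2 : pr (fun s => circ (1 / 2) s - (-d'⁻¹)) (fun s => circ (1 / 2) s - (-d⁻¹)) = 0 := by
    have hne : ∀ {d : ℂ}, ‖d‖ ≤ 1 → d ≠ 0 → ‖-d⁻¹‖ ≠ 1 / 2 := by
      intro d hd hd0 h
      have := inv_norm hd hd0
      rw [h] at this
      norm_num at this
    rw [pr_lin (by norm_num) (hne hd' h0') (hne hd h0), wd_inv hd h0, wd_inv hd' h0', sub_self,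
      mul_zero, mul_zero]
  rw [h1, h2, add_zero, neg_zero]

theorem pr_circ_aff (hd : ‖d‖ ≤ 1) :
    pr (circ (1 / 2)) (fun s => 1 + d * circ (1 / 2) s) = 0 := by
  rcases eq_or_ne d 0 with rfl | h0
  · simp only [zero_mul, add_zero]
    exact pr_one
  have e : (fun s => 1 + d * circ (1 / 2) s) =
      fun s => d * (circ (1 / 2) s - (-d⁻¹)) := funext fun s => sub_eq_aff h0 s
  have hne : ‖-d⁻¹‖ ≠ 1 / 2 := by
    intro h
    have := inv_norm hd h0
    rw [h] at this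
    norm_num at this
  rw [e, pr_mul (nz_circ (by norm_num)) (nz_const h0) (nz_sub hd h0),
    Pool.Agent.TH826.UH.pr_const (by norm_num)]
  have h3 := pr_lin (R := 1 / 2) (by norm_num) (β := 0) (c := -d⁻¹) (by norm_num) hne
  have h4 : (fun s => circ (1 / 2) s - 0) = circ (1 / 2) := by
    funext s
    rw [sub_zero]
  rw [h4, wd_inv hd h0] at h3
  rw [h3]
  have h5 : wd (1 / 2) 0 = 1 := by
    unfold wd
    rw [if_pos (by norm_num)]
  rw [h5, zero_sub, neg_neg, norm_inv, Real.log_inv]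
  ring

end affine

section pert

variable {x x' : ℝ → ℂ} {η η' : ℝ}

theorem near_pert (hη : η ≤ 1 / 4) (hx : ContDiff ℝ 2 x) (hper : ∀ s, x (s + 1) = x s)
    (hb : ∀ s, ‖x s‖ ≤ η) : Near fun s => 1 + x s := by
  refine ⟨contDiff_const.add hx, fun s => ?_, fun s => ?_⟩
  · simp only [hper]
  · rw [add_sub_cancel_left]
    linarith [hb s]

theorem near_prod {d : ℂ} (hd : ‖d‖ ≤ 1) (hη : η ≤ 1 / 4) (hx : ContDiff ℝ 2 x)
    (hper : ∀ s, x (s + 1) = x s) (hb : ∀ s, ‖x s‖ ≤ η) :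
    Near fun s => (1 + d * circ (1 / 2) s) * (1 + x s) := by
  refine ⟨(near_aff hd).smooth.mul (near_pert hη hx hper hb).smooth, fun s => ?_, fun s => ?_⟩
  · simp only [hper, circ_add_one]
  · have e : (1 + d * circ (1 / 2) s) * (1 + x s) - 1 =
        d * circ (1 / 2) s + (1 + d * circ (1 / 2) s) * x s := by ring
    rw [e]
    refine (norm_add_le _ _).trans_lt ?_
    rw [norm_mul, norm_mul, norm_circ (by norm_num)]
    have h1 := (aff_norm hd s).2
    have h2 := hb s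
    have h3 : ‖1 + d * circ (1 / 2) s‖ * ‖x s‖ ≤ 3 / 2 * (1 / 4) :=
      mul_le_mul h1 (h2.trans hη) (norm_nonneg _) (by norm_num)
    linarith

theorem pert_im (hη : η ≤ 1 / 4) (hx : ContDiff ℝ 2 x)
    (hb : ∀ s, ‖x s‖ ≤ η) (hb' : ∀ s, ‖deriv x s‖ ≤ η') (s : ℝ) :
    |(deriv (fun s => 1 + x s) s / (1 + x s)).im| ≤ 4 / 3 * η' := by
  have e : deriv (fun s => 1 + x s) s = deriv x s :=
    ((hx.differentiable (by norm_num) s).hasDerivAt.const_add 1).deriv
  rw [e]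
  exact abs_im_div ((hb s).trans hη) (hb' s)

end pert

end Pool.Agent.J4H54.LA
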